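import Pool.Agent.Helper13_Men.Strong

/-!
# Squad MEN, module BND
-/

open MeasureTheory Set

namespace Pool.Agent.Men.RR.H13

theorem bnd (hConst : ConstStmt) (hCrn : CrnStmt) (hHull : HullStmt) (hClo : CloStmt) :
    BndStmt := by
  classical
  intro I Λ _ _ _ _ L hL F hF hFd p0 s0 hp0
  obtain ⟨Op1, hOp1⟩ := hClo.2 Λ
  obtain ⟨Op2, hOp2⟩ := hCrn I Λ
  have hcc : ∀ (k : ℕ) (q : Cond ℕ Λ × Cond (Fin 2) I), q.1.Below L →
      ∃ q' : Cond ℕ Λ × Cond (Fin 2) I, q'.1 ≤ q.1 ∧ q'.1.Below L ∧ q'.2 ≤ q.2 ∧ ∃ n,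
        ∀ y ∈ q'.1.body, ∀ x ∈ q'.2.body, F k (y, x) = n := by
    intro k q hq
    obtain ⟨p', h1, h2, s', h3, n, h4⟩ := hConst I Λ L hL (F k) (hF k) (hFd k) q.1 q.2 hq
    exact ⟨(p', s'), h1, h2, h3, n, h4⟩
  choose! dd hdd1 hdd2 hdd3 hdd4 using hcc
  let f : ℕ → Cond ℕ Λ → Cond ℕ Λ → Cond (Fin 2) I → Cond (Fin 2) I → Unit → Cond ℕ Λ :=
    fun k a a' b _ _ => if k % 2 = 0 then Op1 (k / 2) a a' else (dd (k / 2) (a, b)).1
  let g : ℕ → Cond ℕ Λ → Cond ℕ Λ → Cond (Fin 2) I → Cond (Fin 2) I → Unit → Cond (Fin 2) I :=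
    fun k a _ b b' _ => if k % 2 = 0 then Op2 (k / 2) b b' else (dd (k / 2) (a, b)).2
  obtain ⟨N', N, U, hN', hN, _, hW', hW, hU, hcl⟩ := hHull (Cond ℕ Λ) (Cond (Fin 2) I) Unit f g
    (fun _ _ _ _ _ _ => ()) {p0} {s0} {()} (countable_singleton _) (countable_singleton _)
    (countable_singleton _)
  have hr1 : p0 ∈ N' := hW' rfl
  have hr2 : s0 ∈ N := hW rfl
  have hu : () ∈ U := hU rfl
  have hcl1 : ∀ k, ∀ a ∈ N', ∀ a' ∈ N', Op1 k a a' ∈ N' := by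
    intro k a ha a' ha'
    have h := (hcl (2 * k) a ha a' ha' s0 hr2 s0 hr2 () hu).1
    have e1 : 2 * k % 2 = 0 := by omega
    have e2 : 2 * k / 2 = k := by omega
    simpa only [f, e1, e2, if_true] using h
  have hcl2 : ∀ k, ∀ b ∈ N, ∀ b' ∈ N, Op2 k b b' ∈ N := by
    intro k b hb b' hb'
    have h := (hcl (2 * k) p0 hr1 p0 hr1 b hb b' hb' () hu).2.1
    have e1 : 2 * k % 2 = 0 := by omega
    have e2 : 2 * k / 2 = k := by omega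
    simpa only [g, e1, e2, if_true] using h
  have hcl3 : ∀ k, ∀ a ∈ N', ∀ b ∈ N, (dd k (a, b)).1 ∈ N' ∧ (dd k (a, b)).2 ∈ N := by
    intro k a ha b hb
    have h := hcl (2 * k + 1) a ha a ha b hb b hb () hu
    have e1 : ¬ (2 * k + 1) % 2 = 0 := by omega
    have e2 : (2 * k + 1) / 2 = k := by omega
    simpa only [f, g, e1, e2, if_false] using And.intro h.1 h.2.1
  have hC := hOp2 N' N (hOp1 N' hN' ⟨_, hr1⟩ hcl1) hN hcl2
  obtain ⟨p', hp', hp'L, s', hs', R, Fl, c, hR, hFl, hc1, hc2, H⟩ := hC L hL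
    (fun k p s => ∃ B, ∀ y ∈ p.body, ∀ x ∈ s.body, F k (y, x) ≤ B)
    (by
      rintro k p1 _ p' _ s1 _ s' _ ⟨B, hB⟩ h1 h2
      exact ⟨B, fun y hy x hx => hB y (h1 hy) x (h2 hx)⟩)
    (by
      intro k p1 hp1 hp1L s1 hs1
      have h := hcl3 k p1 hp1 s1 hs1
      have hb : Cond.Below ((p1, s1) : Cond ℕ Λ × Cond (Fin 2) I).1 L := hp1L
      obtain ⟨n, hn⟩ := hdd4 k (p1, s1) hb
      exact ⟨_, h.1, hdd1 k (p1, s1) hb, hdd2 k (p1, s1) hb, _, h.2, hdd3 k (p1, s1) hb, n,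
        fun y hy x hx => (hn y hy x hx).le⟩)
    p0 hr1 hp0 s0 hr2
  let bd : ℕ → Cond ℕ Λ → Cond (Fin 2) I → ℕ := fun k p s =>
    if h : ∃ B, ∀ y ∈ p.body, ∀ x ∈ s.body, F k (y, x) ≤ B then h.choose else 0
  have hbd : ∀ k p s, (∃ B, ∀ y ∈ p.body, ∀ x ∈ s.body, F k (y, x) ≤ B) →
      ∀ y ∈ p.body, ∀ x ∈ s.body, F k (y, x) ≤ bd k p s := by
    intro k p s h
    simp only [bd, h, dif_pos]
    exact h.choose_spec
  let G : ℕ → ℕ → ℕ := fun k n => ((Fl n).map (bd k (R n))).sum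
  refine ⟨p', hp', hp'L, s', hs', fun k y => G k (c k y), fun k => ?_, fun k => ?_, ?_⟩
  · exact (measurable_from_nat (f := G k)).comp (hc1 k)
  · intro y y' h
    simp only [hc2 k y y' h]
  · intro k y hy x hx
    obtain ⟨h1, h2, h3⟩ := H k y hy
    obtain ⟨t, ht, hxt⟩ := h3 x hx
    refine (hbd k _ _ (h2 t ht) y h1 x hxt).trans ?_
    exact List.single_le_sum (by simp) _ (List.mem_map_of_mem ht)

end Pool.Agent.Men.RR.H13
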