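import Pool.Agent.Helper13_Men.Strong
import Pool.Agent.Helper93_MEN.PStmts

/-!
# Squad MEN, module BR
-/

open MeasureTheory Set

namespace Pool.Agent.Men.RR.H13

theorem br_gen {I Λ : Type} [LinearOrder I] [WellFoundedLT I] [LinearOrder Λ] [WellFoundedLT Λ]
    (hCrn : Crn2Stmt) (hHull : HullStmt) (hClo : CloStmt)
    (r : Cond ℕ Λ × Cond (Fin 2) I) (D : ℕ → Set (Cond ℕ Λ × Cond (Fin 2) I))
    (hopen : ∀ i, ∀ d ∈ D i, ∀ e ≤ d, e ∈ D i) (hdense : ∀ i, ∀ q ≤ r, ∃ d ∈ D i, d ≤ q) :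
    ∃ r' ≤ r, ∀ i, ∃ E : Set (Cond ℕ Λ × Cond (Fin 2) I), E.Countable ∧ E ⊆ D i ∧
      r'.1.body ×ˢ r'.2.body ⊆ ⋃ d ∈ E, d.1.body ×ˢ d.2.body := by
  classical
  obtain ⟨Op1, hOp1⟩ := hClo.2 Λ
  obtain ⟨Op2, hOp2⟩ := hCrn I Λ
  choose! dd hdd1 hdd2 using hdense
  let f : ℕ → Cond ℕ Λ → Cond ℕ Λ → Cond (Fin 2) I → Cond (Fin 2) I → Unit → Cond ℕ Λ :=
    fun k a a' b _ _ => if k % 2 = 0 then Op1 (k / 2) a a' else (dd (k / 2) (a, b)).1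
  let g : ℕ → Cond ℕ Λ → Cond ℕ Λ → Cond (Fin 2) I → Cond (Fin 2) I → Unit → Cond (Fin 2) I :=
    fun k a _ b b' _ => if k % 2 = 0 then Op2 (k / 2) b b' else (dd (k / 2) (a, b)).2
  obtain ⟨N', N, U, hN', hN, _, hW', hW, hU, hcl⟩ := hHull (Cond ℕ Λ) (Cond (Fin 2) I) Unit f g
    (fun _ _ _ _ _ _ => ()) {r.1} {r.2} {()} (countable_singleton _) (countable_singleton _)
    (countable_singleton _)
  have hr1 : r.1 ∈ N' := hW' rfl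
  have hr2 : r.2 ∈ N := hW rfl
  have hu : () ∈ U := hU rfl
  have hcl1 : ∀ k, ∀ a ∈ N', ∀ a' ∈ N', Op1 k a a' ∈ N' := by
    intro k a ha a' ha'
    have h := (hcl (2 * k) a ha a' ha' r.2 hr2 r.2 hr2 () hu).1
    have e1 : 2 * k % 2 = 0 := by omega
    have e2 : 2 * k / 2 = k := by omega
    simpa only [f, e1, e2, if_true] using h
  have hcl2 : ∀ k, ∀ b ∈ N, ∀ b' ∈ N, Op2 k b b' ∈ N := by
    intro k b hb b' hb'
    have h := (hcl (2 * k) r.1 hr1 r.1 hr1 b hb b' hb' () hu).2.1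
    have e1 : 2 * k % 2 = 0 := by omega
    have e2 : 2 * k / 2 = k := by omega
    simpa only [g, e1, e2, if_true] using h
  have hcl3 : ∀ k, ∀ a ∈ N', ∀ b ∈ N, (dd k (a, b)).1 ∈ N' ∧ (dd k (a, b)).2 ∈ N := by
    intro k a ha b hb
    have h := hcl (2 * k + 1) a ha a ha b hb b hb () hu
    have e1 : ¬ (2 * k + 1) % 2 = 0 := by omega
    have e2 : (2 * k + 1) / 2 = k := by omega
    simpa only [f, g, e1, e2, if_false] using And.intro h.1 h.2.1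
  have hC := hOp2 N' N (hOp1 N' hN' ⟨_, hr1⟩ hcl1) hN hcl2
  obtain ⟨p', hp', _, s', hs', R, F, c, hR, hF, _, _, H⟩ := hC univ isLowerSet_univ r.1 hr1
    (Cond.below_univ _) r.2 hr2 (fun k p s => (p, s) ∈ D k)
    (fun k p1 _ p' _ s1 _ s' _ h h1 h2 => hopen k _ h _ ⟨h1, h2⟩)
    (by
      intro k p1 hp1 _ hle s1 hs1 hle'
      have h := hcl3 k p1 hp1 s1 hs1
      have h1 := hdd1 k (p1, s1) ⟨hle, hle'⟩
      have h2 := hdd2 k (p1, s1) ⟨hle, hle'⟩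
      exact ⟨_, h.1, h2.1, Cond.below_univ _, _, h.2, h2.2, h1⟩)
  refine ⟨(p', s'), ⟨hp', hs'⟩, fun i => ?_⟩
  refine ⟨(N' ×ˢ N) ∩ D i, (hN'.prod hN).mono inter_subset_left, inter_subset_right, ?_⟩
  rintro ⟨y, x⟩ ⟨hy, hx⟩
  obtain ⟨h1, h2, h3⟩ := H i y hy
  obtain ⟨t, ht, hxt⟩ := h3 x hx
  simp only [mem_iUnion]
  exact ⟨(R (c i y), t), ⟨⟨(hR _).1, hF _ t ht⟩, h2 t ht⟩, h1, hxt⟩

theorem br (hCrn : Crn2Stmt) (hHull : HullStmt) (hClo : CloStmt) : BRStmt :=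
  fun r D h1 h2 => br_gen hCrn hHull hClo r D h1 h2

end Pool.Agent.Men.RR.H13
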