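import Pool.Agent.Helper13_Men.Strong
import Pool.Agent.Helper93_MEN.PStmts

/-!
# Squad MEN, module GPL
-/

open MeasureTheory Set

namespace Pool.Agent.Men.RR.H13

/-- Countable hulls for operations on lists. -/
theorem exists_list_hull {W : Type*} (ops : ℕ → List W → W) (W0 : Set W) (h0 : W0.Countable) :
    ∃ H : Set W, W0 ⊆ H ∧ H.Countable ∧ ∀ i l, (∀ x ∈ l, x ∈ H) → ops i l ∈ H := by
  let step : Set W → Set W := fun H => H ∪ ⋃ i, (ops i) '' {l | ∀ x ∈ l, x ∈ H}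
  let s : ℕ → Set W := fun n => step^[n] W0
  have hs : ∀ n, s (n + 1) = step (s n) := fun n => Function.iterate_succ_apply' step n W0
  have hc : ∀ n, (s n).Countable := by
    intro n
    induction n with
    | zero => exact h0
    | succ n ih =>
      rw [hs]
      refine ih.union (countable_iUnion fun i => Set.Countable.image ?_ _)
      have : Countable (s n) := ih.to_subtype
      rw [← Set.range_list_map_coe]
      exact countable_range _
  have hm : Monotone s := monotone_nat_of_le_succ fun n => by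
    rw [hs]; exact subset_union_left
  refine ⟨⋃ n, s n, subset_iUnion s 0, countable_iUnion hc, fun i l hl => ?_⟩
  have h1 : ∃ n, ∀ x ∈ l, x ∈ s n := by
    induction l with
    | nil => exact ⟨0, by simp⟩
    | cons a l ih =>
      obtain ⟨n, hn⟩ := ih fun x hx => hl x (List.mem_cons_of_mem _ hx)
      obtain ⟨m, hm'⟩ := mem_iUnion.1 (hl a (List.mem_cons_self ..))
      refine ⟨max n m, fun x hx => ?_⟩
      rcases List.mem_cons.1 hx with rfl | hx
      · exact hm (le_max_right n m) hm'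
      · exact hm (le_max_left n m) (hn x hx)
  obtain ⟨n, hn⟩ := h1
  refine mem_iUnion.2 ⟨n + 1, ?_⟩
  rw [hs]
  exact Or.inr (mem_iUnion.2 ⟨i, l, hn, rfl⟩)

theorem gpl (hCrn : CrnStmt) (hClo : CloStmt) : GplStmt := by
  classical
  intro W cd hcd ops D hopen hdense p W0 hW0
  obtain ⟨Op1, hOp1⟩ := hClo.2 Ix
  obtain ⟨Op2, hOp2⟩ := hCrn Ix Ix
  choose dd hdd1 hdd2 using hdense
  -- decoding
  let dec : W → RC := fun w => if h : ∃ q, cd q = w then h.choose else p
  have hdec : ∀ q, dec (cd q) = q := by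
    intro q
    have h : ∃ q', cd q' = cd q := ⟨q, rfl⟩
    simp only [dec, h, dif_pos]
    exact hcd h.choose_spec
  let hd : List W → W := fun l => l.headD (cd p)
  let o : ℕ → List W → W := fun k l =>
    if k % 5 = 0 then ops (k / 5) l
    else if k % 5 = 1 then
      cd (Op1 (k / 5) (dec (hd l)).1 (dec (hd l.tail)).1, (dec (hd l)).2)
    else if k % 5 = 2 then
      cd ((dec (hd l)).1, Op2 (k / 5) (dec (hd l)).2 (dec (hd l.tail)).2)
    else if k % 5 = 3 then cd ((dec (hd l)).1, (dec (hd l.tail)).2)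
    else cd (dd (k / 5) l.tail (dec (hd l)))
  obtain ⟨H, hWH, hHc, hcl⟩ := exists_list_hull o (insert (cd p) W0) (hW0.insert _)
  have hpH : cd p ∈ H := hWH (mem_insert _ _)
  have c0 : ∀ i l, (∀ x ∈ l, x ∈ H) → ops i l ∈ H := by
    intro i l hl
    have h := hcl (5 * i) l hl
    have e1 : 5 * i % 5 = 0 := by omega
    have e2 : 5 * i / 5 = i := by omega
    simpa only [o, e1, e2, if_true] using h
  have c1 : ∀ k, ∀ a b : RC, cd a ∈ H → cd b ∈ H → cd (Op1 k a.1 b.1, a.2) ∈ H := by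
    intro k a b ha hb
    have h := hcl (5 * k + 1) [cd a, cd b] (by simp [ha, hb])
    have e1 : (5 * k + 1) % 5 = 1 := by omega
    have e2 : (5 * k + 1) / 5 = k := by omega
    simpa [o, hd, e1, e2, hdec] using h
  have c2 : ∀ k, ∀ a b : RC, cd a ∈ H → cd b ∈ H → cd (a.1, Op2 k a.2 b.2) ∈ H := by
    intro k a b ha hb
    have h := hcl (5 * k + 2) [cd a, cd b] (by simp [ha, hb])
    have e1 : (5 * k + 2) % 5 = 2 := by omega
    have e2 : (5 * k + 2) / 5 = k := by omega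
    simpa [o, hd, e1, e2, hdec] using h
  have c3 : ∀ a b : RC, cd a ∈ H → cd b ∈ H → cd (a.1, b.2) ∈ H := by
    intro a b ha hb
    have h := hcl 3 [cd a, cd b] (by simp [ha, hb])
    simpa [o, hd, hdec] using h
  have c4 : ∀ k l, (∀ x ∈ l, x ∈ H) → ∀ a : RC, cd a ∈ H → cd (dd k l a) ∈ H := by
    intro k l hl a ha
    have h := hcl (5 * k + 4) (cd a :: l) (by
      intro x hx
      rcases List.mem_cons.1 hx with rfl | hx
      · exact ha
      · exact hl x hx)
    have e1 : (5 * k + 4) % 5 = 4 := by omega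
    have e2 : (5 * k + 4) / 5 = k := by omega
    simpa [o, hd, e1, e2, hdec] using h
  have hQ : (cd ⁻¹' H).Countable := hHc.preimage_of_injOn hcd.injOn
  let N' : Set (Cond ℕ Ix) := Prod.fst '' (cd ⁻¹' H)
  let N : Set (Cond (Fin 2) Ix) := Prod.snd '' (cd ⁻¹' H)
  have hN'c : N'.Countable := hQ.image _
  have hNc : N.Countable := hQ.image _
  have hpair : ∀ a ∈ N', ∀ b ∈ N, cd (a, b) ∈ H := by
    rintro _ ⟨q, hq, rfl⟩ _ ⟨q', hq', rfl⟩
    exact c3 q q' hq hq'
  have hCl : CloG N' := hOp1 N' hN'c ⟨_, p, hpH, rfl⟩ (by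
    rintro k _ ⟨q, hq, rfl⟩ _ ⟨q', hq', rfl⟩
    exact ⟨_, c1 k q q' hq hq', rfl⟩)
  have hC := hOp2 N' N hCl hNc (by
    rintro k _ ⟨q, hq, rfl⟩ _ ⟨q', hq', rfl⟩
    exact ⟨_, c2 k q q' hq hq', rfl⟩)
  -- the tasks
  have hHcount : Countable H := hHc.to_subtype
  have hne : Nonempty (ℕ × List H) := ⟨(0, [])⟩
  obtain ⟨e, he⟩ := exists_surjective_nat (ℕ × List H)
  let L : ℕ → List W := fun k => (e k).2.map Subtype.val
  have hLH : ∀ k, ∀ x ∈ L k, x ∈ H := by
    intro k x hx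
    obtain ⟨z, _, rfl⟩ := List.mem_map.1 hx
    exact z.2
  obtain ⟨p', hp', _, s', hs', R, F, c, hR, hF, _, _, HH⟩ := hC univ isLowerSet_univ
    (fun k p s => (p, s) ∈ D (e k).1 (L k))
    (fun k p1 _ p' _ s1 _ s' _ h h1 h2 => hopen _ _ _ h _ ⟨h1, h2⟩)
    (by
      intro k p1 hp1 _ s1 hs1
      have h := c4 (e k).1 (L k) (hLH k) (p1, s1) (hpair p1 hp1 s1 hs1)
      have h1 := hdd1 (e k).1 (L k) (p1, s1)
      have h2 := hdd2 (e k).1 (L k) (p1, s1)
      exact ⟨_, ⟨_, h, rfl⟩, h2.1, Cond.below_univ _, _, ⟨_, h, rfl⟩, h2.2, h1⟩)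
    p.1 ⟨p, hpH, rfl⟩ (Cond.below_univ _) p.2 ⟨p, hpH, rfl⟩
  obtain ⟨y, hy⟩ := p'.body_nonempty
  obtain ⟨x, hx⟩ := s'.body_nonempty
  refine ⟨H, (subset_insert _ _).trans hWH, hHc, hpH, c0, (y, x), ⟨hp' hy, hs' hx⟩, ?_⟩
  intro i l hl
  have hl' : l ∈ range (List.map (Subtype.val : H → W)) := by
    rw [Set.range_list_map_coe]
    exact hl
  obtain ⟨l', hl'⟩ := hl'
  obtain ⟨k, hk⟩ := he (i, l')
  have hLk : L k = l := by
    simp only [L, hk]
    exact hl'
  obtain ⟨h1, h2, h3⟩ := HH k y hy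
  obtain ⟨t, ht, hxt⟩ := h3 x hx
  have h4 := h2 t ht
  rw [hLk, hk] at h4
  exact ⟨(R (c k y), t), hpair _ (hR _).1 _ (hF _ t ht), h4, h1, hxt⟩

end Pool.Agent.Men.RR.H13
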