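import Pool.Agent.Helper22_Men.Stmts

/-!
# Squad MEN, modules HULL, LOW, CLO
-/

open MeasureTheory Set

namespace Pool.Agent.Men.RR.H13

/-! ### HULL -/

section hull
variable {X Y Z : Type} (f : ℕ → X → X → Y → Y → Z → X) (g : ℕ → X → X → Y → Y → Z → Y)
    (h : ℕ → X → X → Y → Y → Z → Z)

/-- One step of the closure. -/
def hstep (S : Set X × Set Y × Set Z) : Set X × Set Y × Set Z :=
  (S.1 ∪ ⋃ k, ⋃ a ∈ S.1, ⋃ a' ∈ S.1, ⋃ b ∈ S.2.1, ⋃ b' ∈ S.2.1, ⋃ c ∈ S.2.2, {f k a a' b b' c},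
   S.2.1 ∪ ⋃ k, ⋃ a ∈ S.1, ⋃ a' ∈ S.1, ⋃ b ∈ S.2.1, ⋃ b' ∈ S.2.1, ⋃ c ∈ S.2.2, {g k a a' b b' c},
   S.2.2 ∪ ⋃ k, ⋃ a ∈ S.1, ⋃ a' ∈ S.1, ⋃ b ∈ S.2.1, ⋃ b' ∈ S.2.1, ⋃ c ∈ S.2.2, {h k a a' b b' c})

theorem hstep_count {S : Set X × Set Y × Set Z} (h1 : S.1.Countable) (h2 : S.2.1.Countable)
    (h3 : S.2.2.Countable) : (hstep f g h S).1.Countable ∧ (hstep f g h S).2.1.Countable ∧
      (hstep f g h S).2.2.Countable := by
  refine ⟨h1.union (countable_iUnion fun k => h1.biUnion fun a _ => h1.biUnion fun a' _ =>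
      h2.biUnion fun b _ => h2.biUnion fun b' _ => h3.biUnion fun c _ => countable_singleton _),
    h2.union (countable_iUnion fun k => h1.biUnion fun a _ => h1.biUnion fun a' _ =>
      h2.biUnion fun b _ => h2.biUnion fun b' _ => h3.biUnion fun c _ => countable_singleton _),
    h3.union (countable_iUnion fun k => h1.biUnion fun a _ => h1.biUnion fun a' _ =>
      h2.biUnion fun b _ => h2.biUnion fun b' _ => h3.biUnion fun c _ => countable_singleton _)⟩

end hull

theorem hull : HullStmt := by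
  intro X Y Z f g h W W' W'' hW hW' hW''
  let s : ℕ → Set X × Set Y × Set Z := fun n => (hstep f g h)^[n] (W, W', W'')
  have hs : ∀ n, s (n + 1) = hstep f g h (s n) := fun n =>
    Function.iterate_succ_apply' (hstep f g h) n (W, W', W'')
  have hc : ∀ n, (s n).1.Countable ∧ (s n).2.1.Countable ∧ (s n).2.2.Countable := by
    intro n
    induction n with
    | zero => exact ⟨hW, hW', hW''⟩
    | succ n ih => rw [hs]; exact hstep_count f g h ih.1 ih.2.1 ih.2.2
  have m1 : Monotone fun n => (s n).1 := monotone_nat_of_le_succ fun n => by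
    rw [hs]; exact subset_union_left
  have m2 : Monotone fun n => (s n).2.1 := monotone_nat_of_le_succ fun n => by
    rw [hs]; exact subset_union_left
  have m3 : Monotone fun n => (s n).2.2 := monotone_nat_of_le_succ fun n => by
    rw [hs]; exact subset_union_left
  refine ⟨⋃ n, (s n).1, ⋃ n, (s n).2.1, ⋃ n, (s n).2.2, countable_iUnion fun n => (hc n).1,
    countable_iUnion fun n => (hc n).2.1, countable_iUnion fun n => (hc n).2.2,
    subset_iUnion (fun n => (s n).1) 0, subset_iUnion (fun n => (s n).2.1) 0,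
    subset_iUnion (fun n => (s n).2.2) 0, ?_⟩
  intro k a ha a' ha' b hb b' hb' c hc'
  obtain ⟨n1, h1⟩ := mem_iUnion.1 ha
  obtain ⟨n2, h2⟩ := mem_iUnion.1 ha'
  obtain ⟨n3, h3⟩ := mem_iUnion.1 hb
  obtain ⟨n4, h4⟩ := mem_iUnion.1 hb'
  obtain ⟨n5, h5⟩ := mem_iUnion.1 hc'
  let n := n1 + n2 + n3 + n4 + n5
  have g1 : a ∈ (s n).1 := m1 (show n1 ≤ n by omega) h1
  have g2 : a' ∈ (s n).1 := m1 (show n2 ≤ n by omega) h2
  have g3 : b ∈ (s n).2.1 := m2 (show n3 ≤ n by omega) h3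
  have g4 : b' ∈ (s n).2.1 := m2 (show n4 ≤ n by omega) h4
  have g5 : c ∈ (s n).2.2 := m3 (show n5 ≤ n by omega) h5
  refine ⟨mem_iUnion.2 ⟨n + 1, ?_⟩, mem_iUnion.2 ⟨n + 1, ?_⟩, mem_iUnion.2 ⟨n + 1, ?_⟩⟩
  · rw [hs]
    right
    simp only [mem_iUnion]
    exact ⟨k, a, g1, a', g2, b, g3, b', g4, c, g5, rfl⟩
  · rw [hs]
    right
    simp only [mem_iUnion]
    exact ⟨k, a, g1, a', g2, b, g3, b', g4, c, g5, rfl⟩
  · rw [hs]
    right
    simp only [mem_iUnion]
    exact ⟨k, a, g1, a', g2, b, g3, b', g4, c, g5, rfl⟩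

/-! ### LOW -/

theorem low : LowStmt := by
  intro Λ _ _ _ P h0 h1 h2
  have key : ∀ J : Set Λ, IsLowerSet J → (∀ j ∈ J, P (Iio j)) → P J := by
    intro J hJ hP
    rcases J.eq_empty_or_nonempty with rfl | hne
    · exact h0
    by_cases hmax : ∃ δ ∈ J, ∀ j ∈ J, j ≤ δ
    · obtain ⟨δ, hδ, hm⟩ := hmax
      have : J = Iic δ := by
        ext j
        exact ⟨fun hj => hm j hj, fun hj => hJ hj hδ⟩
      rw [this]
      exact h1 δ (hP δ hδ)
    · push Not at hmax
      obtain ⟨e, he⟩ := (Set.to_countable J).exists_eq_range hne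
      have heJ : ∀ n, e n ∈ J := fun n => by rw [he]; exact mem_range_self n
      choose! nx hnx1 hnx2 using hmax
      let j : ℕ → Λ := fun n => Nat.rec (e 0) (fun k x => nx (max x (e k))) n
      have hjs : ∀ n, j (n + 1) = nx (max (j n) (e n)) := fun n => rfl
      have hjJ : ∀ n, j n ∈ J := by
        intro n
        induction n with
        | zero => exact heJ 0
        | succ n ih =>
          rw [hjs]
          apply hnx1
          rcases max_choice (j n) (e n) with h | h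
          · rw [h]; exact ih
          · rw [h]; exact heJ n
      have hmm : ∀ n, max (j n) (e n) ∈ J := by
        intro n
        rcases max_choice (j n) (e n) with h | h
        · rw [h]; exact hjJ n
        · rw [h]; exact heJ n
      have hjl : ∀ n, j n < j (n + 1) := by
        intro n
        rw [hjs]
        exact (le_max_left _ _).trans_lt (hnx2 _ (hmm n))
      have : J = ⋃ n, Iio (j n) := by
        ext x
        simp only [mem_iUnion, mem_Iio]
        constructor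
        · intro hx
          rw [he] at hx
          obtain ⟨n, rfl⟩ := hx
          refine ⟨n + 1, ?_⟩
          rw [hjs]
          exact (le_max_right _ _).trans_lt (hnx2 _ (hmm n))
        · rintro ⟨n, hn⟩
          exact hJ hn.le (hjJ n)
      rw [this]
      exact h2 j (strictMono_nat_of_lt_succ hjl) fun n => hP _ (hjJ n)
  have h3 : ∀ i : Λ, P (Iio i) := by
    intro i
    induction i using WellFoundedLT.induction with
    | ind i ih =>
      exact key _ (isLowerSet_Iio i) fun j hj => ih j hj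
  intro J hJ
  exact key J hJ fun j _ => h3 j

/-! ### CLO -/

theorem Cond.ext' {D : Type} [MeasurableSpace D] [Alph D] {I : Type} [LinearOrder I]
    {p q : Cond D I} (h1 : ∀ i y, p.T i y = q.T i y) (h2 : p.S = q.S) : p = q := by
  have h3 : p.T = q.T := by
    funext i y
    exact h1 i y
  cases p
  cases q
  simp only at h3 h2
  subst h3
  subst h2
  rfl

section
variable {D : Type} [MeasurableSpace D] [Alph D] {Λ : Type} [LinearOrder Λ] [WellFoundedLT Λ]

/-- Traces of lower sets on a set are traces of initial segments with an end point in this set. -/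
theorem exists_trace (S J : Set Λ) (hJ : IsLowerSet J) :
    ∃ K ∈ insert univ (Iio '' S), IsLowerSet K ∧ ∀ i ∈ S, i ∈ J ↔ i ∈ K := by
  by_cases h : S ⊆ J
  · exact ⟨univ, mem_insert _ _, isLowerSet_univ, fun i hi => ⟨fun _ => trivial, fun _ => h hi⟩⟩
  · have hne : (S \ J).Nonempty := by
      rw [Set.not_subset] at h
      obtain ⟨i, h1, h2⟩ := h
      exact ⟨i, h1, h2⟩
    let m := (wellFounded_lt (α := Λ)).min (S \ J) hne
    have hm : m ∈ S \ J := (wellFounded_lt (α := Λ)).min_mem _ hne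
    refine ⟨Iio m, Or.inr ⟨m, hm.1, rfl⟩, isLowerSet_Iio m, fun i hi => ⟨fun hiJ => ?_, ?_⟩⟩
    · by_contra h'
      exact hm.2 (hJ (not_lt.1 h') hiJ)
    · intro hlt
      by_contra hiJ
      exact (wellFounded_lt (α := Λ)).not_lt_min (S \ J) ⟨hi, hiJ⟩ hlt

omit [WellFoundedLT Λ] in
theorem restr_congr (p : Cond D Λ) {J K : Set Λ} (hJ : IsLowerSet J) (hK : IsLowerSet K)
    (h : ∀ i ∈ p.S, i ∈ J ↔ i ∈ K) : p.restr J = p.restr K := by
  apply Cond.ext'
  · intro i y
    by_cases hi : i ∈ p.S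
    · by_cases hiJ : i ∈ J
      · rw [p.restr_T hiJ, p.restr_T ((h i hi).1 hiJ)]
      · rw [p.restr_T' hiJ, p.restr_T' fun hiK => hiJ ((h i hi).2 hiK)]
    · have h1 : ∀ L : Set Λ, (p.restr L).T i y = Alph.full D := by
        intro L
        by_cases hiL : i ∈ L
        · rw [p.restr_T hiL, p.full' i hi]
        · rw [p.restr_T' hiL]
      rw [h1, h1]
  · rw [Cond.restr_S hJ, Cond.restr_S hK]
    ext i
    simp only [mem_inter_iff]
    exact ⟨fun hi => ⟨hi.1, (h i hi.1).1 hi.2⟩, fun hi => ⟨hi.1, (h i hi.1).2 hi.2⟩⟩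

omit [WellFoundedLT Λ] in
theorem glue_congr (r p : Cond D Λ) {J K : Set Λ}
    (h : ∀ i ∈ r.S ∪ p.S, i ∈ J ↔ i ∈ K) : Cond.glue r p J = Cond.glue r p K := by
  apply Cond.ext'
  · intro i y
    by_cases hi : i ∈ r.S ∪ p.S
    · by_cases hiJ : i ∈ J
      · rw [Cond.glue_T _ _ hiJ, Cond.glue_T _ _ ((h i hi).1 hiJ)]
      · rw [Cond.glue_T' _ _ hiJ, Cond.glue_T' _ _ fun hiK => hiJ ((h i hi).2 hiK)]
    · rw [Set.mem_union, not_or] at hi
      have h1 : ∀ L : Set Λ, (Cond.glue r p L).T i y = Alph.full D := by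
        intro L
        by_cases hiL : i ∈ L
        · rw [Cond.glue_T _ _ hiL, r.full' i hi.1]
        · rw [Cond.glue_T' _ _ hiL, p.full' i hi.2]
      rw [h1, h1]
  · rfl

/-- The results of all operations applied to two conditions, node operations at the coordinates in
the set `C`. -/
def fam (C : Set Λ) (p r : Cond D Λ) : Set (Cond D Λ) :=
  {q | q = Cond.one D Λ ∨ (∃ J, IsLowerSet J ∧ q = p.restr J) ∨
    (∃ J, IsLowerSet J ∧ q = Cond.glue p r J) ∨ ∃ i ∈ C, ∃ τ, q = p.node i τ}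

theorem fam_countable {C : Set Λ} (hC : C.Countable) (p r : Cond D Λ) :
    (fam C p r).Countable := by
  have h1 : ((fun J => p.restr J) '' (insert univ (Iio '' p.S))).Countable :=
    ((p.scount.image _).insert _).image _
  have h2 : ((fun J => Cond.glue p r J) '' (insert univ (Iio '' (p.S ∪ r.S)))).Countable :=
    (((p.scount.union r.scount).image _).insert _).image _
  have h3 : (⋃ i ∈ C, range fun τ : Node => p.node i τ).Countable :=
    hC.biUnion fun i _ => countable_range _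
  refine ((((countable_singleton (Cond.one D Λ)).union h1).union h2).union h3).mono ?_
  rintro q (rfl | ⟨J, hJ, rfl⟩ | ⟨J, hJ, rfl⟩ | ⟨i, hi, τ, rfl⟩)
  · exact Or.inl (Or.inl (Or.inl rfl))
  · left; left; right
    obtain ⟨K, hK, hK1, hK2⟩ := exists_trace p.S J hJ
    exact ⟨K, hK, (restr_congr p hJ hK1 hK2).symm⟩
  · left; right
    obtain ⟨K, hK, hK1, hK2⟩ := exists_trace (p.S ∪ r.S) J hJ
    exact ⟨K, hK, (glue_congr p r hK2).symm⟩
  · right
    simp only [mem_iUnion]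
    exact ⟨i, hi, τ, rfl⟩

theorem exists_ops (C : Cond D Λ → Set Λ) (hC : ∀ r, (C r).Countable) :
    ∃ Op : ℕ → Cond D Λ → Cond D Λ → Cond D Λ, ∀ p r, ∀ q ∈ fam (C r) p r, ∃ k, Op k p r = q := by
  have h : ∀ p r : Cond D Λ, ∃ f : ℕ → Cond D Λ, fam (C r) p r = range f := fun p r =>
    (fam_countable (hC r) p r).exists_eq_range ⟨Cond.one D Λ, Or.inl rfl⟩
  choose f hf using h
  refine ⟨fun k p r => f p r k, fun p r q hq => ?_⟩
  rw [hf] at hq
  exact hq

end

theorem clo : CloStmt := by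
  constructor
  · intro Λ _ _ _
    obtain ⟨Op, hOp⟩ := exists_ops (D := ℕ) (Λ := Λ) (fun _ => univ) (fun _ => Set.to_countable _)
    refine ⟨Op, fun N hN hne hcl => ?_⟩
    have key : ∀ p ∈ N, ∀ r ∈ N, ∀ q ∈ fam univ p r, q ∈ N := by
      intro p hp r hr q hq
      obtain ⟨k, rfl⟩ := hOp p r q hq
      exact hcl k p hp r hr
    obtain ⟨p0, hp0⟩ := hne
    exact ⟨hN, key p0 hp0 p0 hp0 _ (Or.inl rfl),
      fun p hp J hJ => key p hp p hp _ (Or.inr (Or.inl ⟨J, hJ, rfl⟩)),
      fun r hr p hp J hJ => key r hr p hp _ (Or.inr (Or.inr (Or.inl ⟨J, hJ, rfl⟩))),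
      fun p hp i τ => key p hp p hp _ (Or.inr (Or.inr (Or.inr ⟨i, trivial, τ, rfl⟩)))⟩
  · intro Λ _ _
    obtain ⟨Op, hOp⟩ := exists_ops (D := ℕ) (Λ := Λ) (fun r => r.S) (fun r => r.scount)
    refine ⟨Op, fun N hN hne hcl => ?_⟩
    have key : ∀ p ∈ N, ∀ r ∈ N, ∀ q ∈ fam r.S p r, q ∈ N := by
      intro p hp r hr q hq
      obtain ⟨k, rfl⟩ := hOp p r q hq
      exact hcl k p hp r hr
    obtain ⟨p0, hp0⟩ := hne
    exact ⟨hN, key p0 hp0 p0 hp0 _ (Or.inl rfl),
      fun p hp J hJ => key p hp p hp _ (Or.inr (Or.inl ⟨J, hJ, rfl⟩)),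
      fun r hr p hp J hJ => key r hr p hp _ (Or.inr (Or.inr (Or.inl ⟨J, hJ, rfl⟩))),
      fun p hp r hr i hi τ => key p hp r hr _ (Or.inr (Or.inr (Or.inr ⟨i, hi, τ, rfl⟩)))⟩

end Pool.Agent.Men.RR.H13
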