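import Pool.Agent.Helper22_Men.Stmts

/-!
# Squad MEN: strong forms of ABS and CRN (density is only asked below the given conditions)
-/

open MeasureTheory Set

namespace Pool.Agent.Men.RR

/-- ABS2: as ABS, but the requirements are only dense below `s0`. -/
def Abs2Stmt : Prop :=
  ∀ (I : Type) [LinearOrder I] [WellFoundedLT I],
    ∃ Op : ℕ → Cond (Fin 2) I → Cond (Fin 2) I → Cond (Fin 2) I,
    ∀ (Q : Type) [Preorder Q] [Countable Q] (N : Set (Cond (Fin 2) I)), N.Countable →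
    (∀ k, ∀ a ∈ N, ∀ b ∈ N, Op k a b ∈ N) → ∀ s0 ∈ N, ∀ E : ℕ → Cond (Fin 2) I → Q → Prop,
    (∀ k, ∀ s ∈ N, ∀ s' ∈ N, ∀ q q', E k s q → s' ≤ s → q' ≤ q → E k s' q') →
    (∀ k, ∀ s ∈ N, s ≤ s0 → ∀ q, ∃ s' ∈ N, s' ≤ s ∧ ∃ q' ≤ q, E k s' q') →
    ∃ s1 ≤ s0, ∀ k q, ∃ q' ≤ q, ∃ F : List (Cond (Fin 2) I),
      (∀ s ∈ F, s ∈ N ∧ s ≤ s0 ∧ E k s q') ∧ ∀ x ∈ s1.body, ∃ s ∈ F, x ∈ s.body

/-- The covering property of the product, strong form: the requirements are only dense below the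
pair `(p, s)`. -/
def Crn2 (I Λ : Type) [LinearOrder I] [LinearOrder Λ]
    (N' : Set (Cond ℕ Λ)) (N : Set (Cond (Fin 2) I)) : Prop :=
  ∀ L : Set Λ, IsLowerSet L → ∀ p ∈ N', p.Below L → ∀ s ∈ N,
    ∀ E : ℕ → Cond ℕ Λ → Cond (Fin 2) I → Prop,
    (∀ k, ∀ p1 ∈ N', ∀ p' ∈ N', ∀ s1 ∈ N, ∀ s' ∈ N, E k p1 s1 → p' ≤ p1 → s' ≤ s1 → E k p' s') →
    (∀ k, ∀ p1 ∈ N', p1.Below L → p1 ≤ p → ∀ s1 ∈ N, s1 ≤ s →
      ∃ p' ∈ N', p' ≤ p1 ∧ p'.Below L ∧ ∃ s' ∈ N, s' ≤ s1 ∧ E k p' s') →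
    ∃ p' ≤ p, p'.Below L ∧ ∃ s' ≤ s,
      ∃ (R : ℕ → Cond ℕ Λ) (F : ℕ → List (Cond (Fin 2) I)) (c : ℕ → Pt ℕ Λ → ℕ),
        (∀ n, R n ∈ N' ∧ (R n).Below L) ∧ (∀ n, ∀ t ∈ F n, t ∈ N) ∧
        (∀ k, Measurable (c k)) ∧ (∀ k, DepFun L (c k)) ∧
        ∀ k, ∀ y ∈ p'.body, y ∈ (R (c k y)).body ∧ (∀ t ∈ F (c k y), E k (R (c k y)) t) ∧
          ∀ x ∈ s'.body, ∃ t ∈ F (c k y), x ∈ t.body

/-- CRNC, strong form: countable index set on the Miller side (from ABS2 and REL). -/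
def Crnc2Stmt : Prop :=
  ∀ (I : Type) [LinearOrder I] [WellFoundedLT I],
    ∃ Op : ℕ → Cond (Fin 2) I → Cond (Fin 2) I → Cond (Fin 2) I,
    ∀ (Λ : Type) [LinearOrder Λ] [WellFoundedLT Λ] [Countable Λ]
      (N' : Set (Cond ℕ Λ)) (N : Set (Cond (Fin 2) I)), Clo N' → N.Countable →
      (∀ k, ∀ a ∈ N, ∀ b ∈ N, Op k a b ∈ N) → Crn2 I Λ N' N

/-- CRN, strong form: arbitrary index sets (by transfer). -/
def Crn2Stmt : Prop :=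
  ∀ (I Λ : Type) [LinearOrder I] [WellFoundedLT I] [LinearOrder Λ] [WellFoundedLT Λ],
    ∃ Op : ℕ → Cond (Fin 2) I → Cond (Fin 2) I → Cond (Fin 2) I,
    ∀ (N' : Set (Cond ℕ Λ)) (N : Set (Cond (Fin 2) I)), CloG N' → N.Countable →
      (∀ k, ∀ a ∈ N, ∀ b ∈ N, Op k a b ∈ N) → Crn2 I Λ N' N

namespace H13

/-- The strong form implies the weak form. -/
theorem crn_of_crn2 {I Λ : Type} [LinearOrder I] [LinearOrder Λ] {N' : Set (Cond ℕ Λ)}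
    {N : Set (Cond (Fin 2) I)} (h : Crn2 I Λ N' N) : Crn I Λ N' N := by
  intro L hL E h1 h2 p hp hpL s hs
  exact h L hL p hp hpL s hs E h1 fun k p1 hp1 hp1L _ s1 hs1 _ => h2 k p1 hp1 hp1L s1 hs1

theorem crncStmt_of (h : Crnc2Stmt) : CrncStmt := by
  intro I _ _
  obtain ⟨Op, hOp⟩ := h I
  refine ⟨Op, ?_⟩
  intro Λ _ _ _ N' N h1 h2 h3
  exact crn_of_crn2 (hOp Λ N' N h1 h2 h3)

theorem crnStmt_of (h : Crn2Stmt) : CrnStmt := by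
  intro I Λ _ _ _ _
  obtain ⟨Op, hOp⟩ := h I Λ
  exact ⟨Op, fun N' N h1 h2 h3 => crn_of_crn2 (hOp N' N h1 h2 h3)⟩

/-- Decisions on the Sacks side. -/
theorem dec_sacks (hStar : StarStmt) {I : Type} [LinearOrder I] [WellFoundedLT I]
    (A : Set (Pt (Fin 2) I)) (hA : MeasurableSet A) (s : Cond (Fin 2) I) :
    ∃ t ≤ s, t.body ⊆ A ∨ Disjoint t.body A := by
  obtain ⟨s1, h1, r1, _, D, hD, h2⟩ := hStar I Unit (fun _ => A) (fun _ => hA) () s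
  obtain ⟨d, hd, _⟩ := hD r1 le_rfl
  exact ⟨s1, h1, h2.imp (fun h => h d hd) fun h => h d hd⟩

theorem abs2 (hAbs : AbsStmt) (hStar : StarStmt) : Abs2Stmt := by
  classical
  intro I _ _
  obtain ⟨Op, hOp⟩ := hAbs I
  have hdec : ∀ s s0 : Cond (Fin 2) I, ∃ t ≤ s, t.body ⊆ s0.body ∨ Disjoint t.body s0.body :=
    fun s s0 => dec_sacks hStar s0.body s0.measurableSet_body s
  choose dec hd1 hd2 using hdec
  refine ⟨fun k a b => Nat.casesOn k (dec a b) fun k => Op k a b, ?_⟩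
  intro Q _ _ N hN hcl s0 hs0 E hE hdense
  obtain ⟨s1, hs1, H⟩ := hOp Q N hN (fun k a ha b hb => hcl (k + 1) a ha b hb)
    (fun k s q => (s ≤ s0 ∧ E k s q) ∨ Disjoint s.body s0.body)
    (by
      rintro k s hs s' hs' q q' (⟨h1, h2⟩ | h1) hss hqq
      · exact Or.inl ⟨hss.trans h1, hE k s hs s' hs' q q' h2 hss hqq⟩
      · exact Or.inr (h1.mono_left hss))
    (by
      intro k s hs q
      have ht : dec s s0 ∈ N := hcl 0 s hs s0 hs0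
      rcases hd2 s s0 with h | h
      · obtain ⟨s', hs', h1, q', h2, h3⟩ := hdense k _ ht h q
        exact ⟨s', hs', h1.trans (hd1 s s0), q', h2, Or.inl ⟨h1.trans h, h3⟩⟩
      · exact ⟨_, ht, hd1 s s0, q, le_rfl, Or.inr h⟩)
    s0 hs0
  refine ⟨s1, hs1, fun k q => ?_⟩
  obtain ⟨q', hq', F, hF1, hF2⟩ := H k q
  refine ⟨q', hq', F.filter fun t => decide (t ≤ s0 ∧ E k t q'), ?_, ?_⟩
  · intro t ht
    rw [List.mem_filter, decide_eq_true_eq] at ht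
    exact ⟨(hF1 t ht.1).1, ht.2.1, ht.2.2⟩
  · intro x hx
    obtain ⟨t, ht, hxt⟩ := hF2 x hx
    refine ⟨t, ?_, hxt⟩
    rw [List.mem_filter, decide_eq_true_eq]
    refine ⟨ht, ?_⟩
    rcases (hF1 t ht).2 with h | h
    · exact h
    · exact (Set.disjoint_left.1 h hxt (hs1 hx)).elim

end H13

end Pool.Agent.Men.RR
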